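import Pool.Agent.Lib.MP_011f3a_lc.LM.E.Main
import Pool.Agent.Lib.MP_011f3a_lc.LM.G.OmB

/-!
# No strong avoidance in the Laver model and in the Miller model

In the Laver model and in the Miller model no `𝔠`-dense set `X ⊆ 2^ω` strongly avoids a `𝔠`-dense set
`Y ⊆ 2^ω`. Even more: for all sets `X, Y ⊆ 2^ω` of cardinality `𝔠` there are a set `Z ⊆ X` of cardinality
`𝔠` and a continuous function from `Z` onto `Y`.

* `LM/I/Stmt0.lean`: the countable support iterations. `Md` is the choice of the forcing (`laver`, `miller`), `Cn Ω md ζ`
  is the set of the conditions of the iteration `P_ζ` along the well-ordered set `Ω`: functions `p` with domain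
  `{ξ : ξ < ζ}` such that `p(ξ)` is a `P_ξ`-name of a tree, forced by `p|ξ` to be a Laver tree (a rational perfect tree), and
  such that `p(ξ)` is the full tree for all but countably many `ξ`; `p ≤ q` if `p|ξ` forces `p(ξ) ⊆ q(ξ)` for all `ξ < ζ`.
  `WithTop o.ToType` is a well-ordered set of order type `o + 1`, so `ζ = ⊤` gives the iteration of length `o`.
* `RO P`, `BSet B`, `Fml`, `Fml.Sat`, `Fml.bv` (`MP_4d8715_gt/KR/Z`): the complete Boolean algebra of the
  regular open sets of conditions, the Boolean-valued model `V^B`, the formulas of the language of set theory, their truth in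
  a structure and their Boolean values. A sentence has the Boolean value `⊤` iff it is forced by all
  conditions. The ground model is the universe of the sets of type `Type`.
* `LM/E/Stmt.lean`: `Ms.NoAvoid E` is the statement read in the structure `(M, E)`.

The length of the iteration is `𝔠⁺`; if CH holds this is `ω₂`. (Without CH, the first `ω₁` steps
force CH and collapse `𝔠` to `ω₁`, and the rest of the iteration has length `ω₂` over this model.)

The proof (directory `LM`): `I`, `A`: iterations and generic filters; `B`: fusion of trees; `D`, `K`: for every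
condition `p` and every real `x` which is not in the model at stage `β` there are `q ≤ p` and a continuous function, coded in
the model at stage `β`, which maps `x` to the generic branch at `β`; `G`: reflection at stages of uncountable
cofinality; `H`: the generic branch at `β` can be made to code any prescribed real, so one continuous function on a subset of `X`
(coded in an intermediate model, the same for cofinally many `β`) is onto; `E`: the Boolean value of the sentence.
-/

namespace Pool.Agent.Results.MP_011f3a_lc.LaverMillerNoAvoid

open Pool.Agent.Lib.MP_4d8715_gt.KR Pool.Agent.Lib.MP_011f3a_lc.LM Cardinal Ordinal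

/-- all conditions of the countable support iteration of length `o` of Laver forcing (of rational perfect
set forcing) force `φ`: the Boolean value of `φ` is `⊤` -/
def Forced (md : Md) (o : Ordinal.{0}) (φ : Fml 0) : Prop :=
  Fml.bv φ (![] : Fin 0 → BSet (RO (Cn (WithTop o.ToType) md ⊤))) = ⊤

private theorem forced_top (md : Md) (o : Ordinal.{0}) (ho : o = (Order.succ (𝔠 : Cardinal.{0})).ord) :
    Forced md o LF.fNoAvoid := by
  subst ho
  exact bv_NoAvoid om2

private theorem length_eq (h : (𝔠 : Cardinal.{0}) = ℵ₁) : ω_ 2 = (Order.succ (𝔠 : Cardinal.{0})).ord := by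
  have h1 := Cardinal.succ_aleph (1 : Ordinal.{0})
  rw [one_add_one_eq_two] at h1
  rw [h, h1, Cardinal.ord_aleph]

/-- There is a sentence `φ` of the language of set theory which says that no `𝔠`-dense `X ⊆ 2^ω` strongly avoids a
`𝔠`-dense `Y ⊆ 2^ω` (and that for all `X, Y ⊆ 2^ω` of cardinality `𝔠` some `Z ⊆ X` of cardinality `𝔠` has a continuous
map onto `Y`), and which is forced by the countable support iteration of length `𝔠⁺` of Laver
forcing, and of Miller's rational perfect set forcing. If CH holds then the length is `ω₂`. -/
theorem result (md : Md) : ∃ φ : Fml 0,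
    (∀ (M : Type 1) (E : M → M → Prop), Fml.Sat E φ ![] ↔ Ms.NoAvoid E) ∧
    Forced md (Order.succ (𝔠 : Cardinal.{0})).ord φ ∧
    ((𝔠 : Cardinal.{0}) = ℵ₁ → Forced md (ω_ 2) φ) :=
  ⟨LF.fNoAvoid, fun _ E => LF.sat2_fNoAvoid E, forced_top md _ rfl, fun h => forced_top md _ (length_eq h)⟩

end Pool.Agent.Results.MP_011f3a_lc.LaverMillerNoAvoid
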